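import Mathlib

set_option autoImplicit false

namespace Pool.Agent.Results.MP_ba281e_nt.NoPoissonSubseq

open Filter Topology

/-- `x_n = {n² α}`, the fractional part of `n² α`. -/
noncomputable def x (α : ℝ) (n : ℕ) : ℝ := Int.fract ((n : ℝ) ^ 2 * α)

/-- The `k`-level correlation `R_k(N, α, f)` for `k = d + 1` and `f : ℝ^d → ℝ`:
`(1/N)` times the sum over pairwise distinct `n_0, …, n_d ∈ {1, …, N}` and over `m ∈ ℤ^d` of
`f (N (x_{n_0} - x_{n_1} + m_0), …, N (x_{n_{d-1}} - x_{n_d} + m_{d-1}))`. -/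
noncomputable def corr (d N : ℕ) (α : ℝ) (f : (Fin d → ℝ) → ℝ) : ℝ :=
  (1 / (N : ℝ)) *
    ∑ n ∈ (Fintype.piFinset fun _ : Fin (d + 1) => Finset.Icc 1 N).filter
        (fun n => Function.Injective n),
      ∑' m : Fin d → ℤ,
        f fun i => (N : ℝ) * (x α (n i.castSucc) - x α (n i.succ) + (m i : ℝ))

/-- `{n² α}` is Poissonian along `N_j`: for every `k = d + 1 ≥ 2` and every continuous compactly
supported `f : ℝ^d → ℝ`, `R_k(N_j, α, f)` tends to the integral of `f`. -/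
def PoissonianAlong (α : ℝ) (N : ℕ → ℕ) : Prop :=
  ∀ d : ℕ, 1 ≤ d → ∀ f : (Fin d → ℝ) → ℝ, Continuous f → HasCompactSupport f →
    Tendsto (fun j => corr d (N j) α f) atTop (𝓝 (∫ y, f y))

/-- `α` is of type `κ`. -/
def IsOfType (κ α : ℝ) : Prop :=
  ∃ C : ℝ, 0 < C ∧ ∀ a q : ℤ, 1 ≤ q → IsCoprime a q →
    C * (q : ℝ) ^ (-κ) ≤ |α - (a : ℝ) / (q : ℝ)|

/-! ### The arithmetic of the construction -/

/-- exponents `m_j` -/
def mm (E : ℕ) : ℕ → ℕ
  | 0 => E
  | j + 1 => 2 * mm E j + (mm E j / E + E + 1)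

/-- exponents `e_j` -/
def ee (E j : ℕ) : ℕ := mm E j / E + E + 1

def qq (E j : ℕ) : ℤ := 4 ^ mm E j

def cc (E j : ℕ) : ℤ := 4 ^ ee E j

def aa (E : ℕ) : ℕ → ℤ
  | 0 => 1
  | j + 1 => cc E j * aa E j * qq E j + 1

/-- the constants in the approximation lemma -/
def gg (E : ℕ) : ℕ → ℤ
  | 0 => 4 ^ E
  | j + 1 => cc E j

lemma mm_succ (E j : ℕ) : mm E (j + 1) = 2 * mm E j + ee E j := rfl

lemma qq_succ (E j : ℕ) : qq E (j + 1) = cc E j * qq E j ^ 2 := by
  unfold qq cc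
  rw [mm_succ, pow_add, mul_comm 2, pow_mul]
  ring

lemma aa_succ (E j : ℕ) : aa E (j + 1) = cc E j * aa E j * qq E j + 1 := rfl

lemma qq_pos (E j : ℕ) : 0 < qq E j := by unfold qq; positivity

lemma cc_pos (E j : ℕ) : 0 < cc E j := by unfold cc; positivity

lemma coprime_aa (E : ℕ) : ∀ j, IsCoprime (aa E j) (qq E j)
  | 0 => isCoprime_one_left
  | j + 1 => by
    refine ⟨1 - cc E j * aa E j * qq E j, cc E j * aa E j ^ 2, ?_⟩
    rw [qq_succ, aa_succ]
    ring

lemma E_le_mm (E : ℕ) : ∀ j, E ≤ mm E j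
  | 0 => le_rfl
  | j + 1 => by
    have := E_le_mm E j
    rw [mm_succ]
    omega

lemma mm_add_le (E j : ℕ) : mm E j + E ≤ mm E (j + 1) := by
  have := E_le_mm E j
  rw [mm_succ]
  omega

lemma ee_succ_ge (E : ℕ) (hE : 1 ≤ E) (j : ℕ) : ee E j + 1 ≤ ee E (j + 1) := by
  unfold ee
  have h := mm_add_le E j
  have h2 : (mm E j + E) / E ≤ mm E (j + 1) / E := Nat.div_le_div_right h
  rw [Nat.add_div_right _ (by omega)] at h2
  omega

lemma gg_pos (E : ℕ) : ∀ j, 0 < gg E j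
  | 0 => by unfold gg; positivity
  | j + 1 => cc_pos E j

lemma four_gg_le (E : ℕ) (hE : 1 ≤ E) : ∀ j, 4 * gg E j ≤ cc E j
  | 0 => by
    show 4 * (4 : ℤ) ^ E ≤ 4 ^ (mm E 0 / E + E + 1)
    have : mm E 0 / E = 1 := Nat.div_self hE
    rw [this]
    have : (4 : ℤ) ^ (1 + E + 1) = 16 * 4 ^ E := by ring
    rw [this]
    have : (0 : ℤ) < 4 ^ E := by positivity
    linarith
  | j + 1 => by
    show 4 * cc E j ≤ cc E (j + 1)
    unfold cc
    rw [← pow_succ']
    exact pow_le_pow_right₀ (by norm_num) (ee_succ_ge E hE j)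

lemma one_le_cc (E j : ℕ) : 1 ≤ cc E j := cc_pos E j

/-- The key approximation property of `a_j / q_j`. -/
lemma key (E : ℕ) (hE : 1 ≤ E) : ∀ j : ℕ, ∀ q p : ℤ, q ≠ 0 → |q| < qq E j →
    qq E j ≤ gg E j * (|q| * |q * aa E j - p * qq E j|)
  | 0 => by
    intro q p hq hlt
    have h1 : (1 : ℤ) ≤ |q| := Int.one_le_abs hq
    have h2 : (1 : ℤ) ≤ |q * aa E 0 - p * qq E 0| := by
      apply Int.one_le_abs
      intro h
      have h3 : qq E 0 ∣ q := ⟨p, by simp [aa] at h; linarith⟩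
      have := Int.le_of_dvd (abs_pos.mpr hq) ((dvd_abs _ _).mpr h3)
      omega
    have h3 : (1 : ℤ) ≤ |q| * |q * aa E 0 - p * qq E 0| := by nlinarith
    have h4 : gg E 0 = qq E 0 := rfl
    rw [h4]
    have := qq_pos E 0
    nlinarith
  | j + 1 => by
    intro q p hq hlt
    have IH := key E hE j
    have hQ := qq_pos E j
    have hC := one_le_cc E j
    have hG := gg_pos E j
    have hGC := four_gg_le E hE j
    set Q := qq E j with hQdef
    set A := aa E j with hAdef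
    set C := cc E j with hCdef
    set G := gg E j with hGdef
    have hqs : qq E (j + 1) = C * Q ^ 2 := qq_succ E j
    have has : aa E (j + 1) = C * A * Q + 1 := aa_succ E j
    have hgs : gg E (j + 1) = C := rfl
    rw [hqs] at hlt
    rw [hqs, has, hgs]
    set t := q * A - p * Q with ht
    have hr : q * (C * A * Q + 1) - p * (C * Q ^ 2) = q + C * Q * t := by rw [ht]; ring
    rw [hr]
    set r := q + C * Q * t with hrdef
    have hqa : (1 : ℤ) ≤ |q| := Int.one_le_abs hq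
    have hcop := coprime_aa E j
    rw [← hQdef, ← hAdef] at hcop
    suffices h : Q ^ 2 ≤ |q| * |r| by
      have h0 : 0 ≤ |q| * |r| := by positivity
      nlinarith
    have hG1 : (1 : ℤ) ≤ G := hG
    by_cases ht0 : t = 0
    · have hr' : r = q := by rw [hrdef, ht0]; ring
      rw [hr']
      have hdvd : Q ∣ q := by
        have : Q ∣ q * A := ⟨p, by rw [ht] at ht0; linarith⟩
        exact hcop.symm.dvd_of_dvd_mul_right this
      have : Q ≤ |q| := Int.le_of_dvd (abs_pos.mpr hq) ((dvd_abs _ _).mpr hdvd)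
      nlinarith
    · have ht1 : (1 : ℤ) ≤ |t| := Int.one_le_abs ht0
      have hCQ : 0 < C * Q := by positivity
      have hCQt : |C * Q * t| = C * Q * |t| := by rw [abs_mul, abs_of_pos hCQ]
      by_cases hbig : 2 * |q| ≤ C * Q
      · have hr1 : C * Q * |t| - |q| ≤ |r| := by
          have h1 := abs_sub_abs_le_abs_sub (C * Q * t) (-q)
          rw [abs_neg, hCQt] at h1
          have h2 : C * Q * t - -q = r := by rw [hrdef]; ring
          rwa [h2] at h1
        have hr2 : C * Q * |t| ≤ 2 * |r| := by nlinarith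
        by_cases hqQ : |q| < Q
        · have h1 := IH q p hq hqQ
          rw [← ht] at h1
          have h2 : C * Q * |t| * |q| ≤ 2 * |r| * |q| :=
            mul_le_mul_of_nonneg_right hr2 (abs_nonneg _)
          have h3 : 4 * G * (Q * (|t| * |q|)) ≤ C * (Q * (|t| * |q|)) :=
            mul_le_mul_of_nonneg_right hGC (by positivity)
          have h4 : Q * Q ≤ Q * (G * (|q| * |t|)) := mul_le_mul_of_nonneg_left h1 hQ.le
          nlinarith
        · push Not at hqQ
          have h1 : C * Q ≤ 2 * |r| := by nlinarith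
          have h2 : Q * (C * Q) ≤ |q| * (2 * |r|) :=
            mul_le_mul hqQ h1 hCQ.le (abs_nonneg _)
          have h3 : 4 * (Q * Q) ≤ C * (Q * Q) :=
            mul_le_mul_of_nonneg_right (by linarith) (by positivity)
          nlinarith
      · push Not at hbig
        by_contra hcon
        push Not at hcon
        have hr0 : r ≠ 0 := by
          intro h0
          have h1 : C * Q ^ 2 ∣ q := by
            have h2 : IsCoprime (C * Q ^ 2) (C * A * Q + 1) := by
              have := coprime_aa E (j + 1)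
              rw [hqs, has] at this
              exact this.symm
            have h3 : C * Q ^ 2 ∣ q * (C * A * Q + 1) := ⟨p, by rw [h0] at hr; linarith⟩
            exact h2.dvd_of_dvd_mul_right h3
          have := Int.le_of_dvd (abs_pos.mpr hq) ((dvd_abs _ _).mpr h1)
          omega
        have hr1 : (1 : ℤ) ≤ |r| := Int.one_le_abs hr0
        have hrQ : |r| < Q := by
          by_contra h
          push Not at h
          have h1 : (4 : ℤ) * Q ≤ C * Q := mul_le_mul_of_nonneg_right (by linarith) hQ.le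
          have h2 : 2 * Q ≤ |q| := by linarith
          have h3 : (2 * Q) * Q ≤ |q| * |r| := mul_le_mul h2 h hQ.le (abs_nonneg _)
          nlinarith
        have h1 := IH r (p + C * t * A) hr0 hrQ
        have h2 : r * A - (p + C * t * A) * Q = t := by rw [hrdef]; linarith
        rw [h2] at h1
        have h3 : C * Q * |t| - |r| ≤ |q| := by
          have h4 := abs_sub_abs_le_abs_sub (C * Q * t) r
          rw [hCQt] at h4
          have h5 : C * Q * t - r = -q := by rw [hrdef]; ring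
          rwa [h5, abs_neg] at h4
        have h4 : (C * Q * |t| - |r|) * |r| ≤ |q| * |r| :=
          mul_le_mul_of_nonneg_right h3 (abs_nonneg _)
        have h5 : 4 * G * (Q * (|t| * |r|)) ≤ C * (Q * (|t| * |r|)) :=
            mul_le_mul_of_nonneg_right hGC (by positivity)
        have h6 : Q * Q ≤ Q * (G * (|r| * |t|)) := mul_le_mul_of_nonneg_left h1 hQ.le
        have h7 : |r| * |r| ≤ Q * Q := mul_le_mul hrQ.le hrQ.le (abs_nonneg _) hQ.le
        nlinarith

/-! ### The number `α` -/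

/-- `α = ∑_j 4^{-m_j}` -/
noncomputable def alpha (E : ℕ) : ℝ := ∑' j : ℕ, (1 / (4 : ℝ)) ^ mm E j

lemma mm_strict (E j i : ℕ) (hE : 1 ≤ E) : mm E j + i ≤ mm E (i + j) := by
  induction i with
  | zero => simp
  | succ i ih =>
    have h := mm_add_le E (i + j)
    have : i + 1 + j = (i + j) + 1 := by ring
    rw [this]
    omega

lemma summable_alpha (E : ℕ) (hE : 1 ≤ E) : Summable fun j : ℕ => (1 / (4 : ℝ)) ^ mm E j := by
  refine Summable.of_nonneg_of_le (fun j => by positivity) (fun j => ?_)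
    (summable_geometric_of_lt_one (by norm_num) (by norm_num : (1 / (4 : ℝ)) < 1))
  have h := mm_strict E 0 j hE
  exact pow_le_pow_of_le_one (by norm_num) (by norm_num) (by simp at h; omega)

lemma partial_sum (E : ℕ) : ∀ j : ℕ,
    ∑ i ∈ Finset.range (j + 1), (1 / (4 : ℝ)) ^ mm E i = (aa E j : ℝ) / (qq E j : ℝ)
  | 0 => by simp [aa, qq]
  | j + 1 => by
    rw [Finset.sum_range_succ, partial_sum E j]
    have h1 : (qq E (j + 1) : ℝ) = (cc E j : ℝ) * (qq E j : ℝ) ^ 2 := by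
      rw [qq_succ]; push_cast; ring
    have h2 : (aa E (j + 1) : ℝ) = (cc E j : ℝ) * aa E j * qq E j + 1 := by
      rw [aa_succ]; push_cast; ring
    have h3 : (1 / (4 : ℝ)) ^ mm E (j + 1) = 1 / (qq E (j + 1) : ℝ) := by
      unfold qq; push_cast; rw [one_div_pow]
    rw [h3, h2, h1]
    have hq : (qq E j : ℝ) ≠ 0 := by exact_mod_cast (qq_pos E j).ne'
    have hc : (cc E j : ℝ) ≠ 0 := by exact_mod_cast (cc_pos E j).ne'
    field_simp

lemma tail_bounds (m : ℕ → ℕ) (hs : Summable fun j : ℕ => (1 / (4 : ℝ)) ^ m j)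
    (M : ℕ) (h : ∀ i, M + i ≤ m i) :
    0 < ∑' i : ℕ, (1 / (4 : ℝ)) ^ m i ∧
      ∑' i : ℕ, (1 / (4 : ℝ)) ^ m i ≤ 2 / (4 : ℝ) ^ M := by
  constructor
  · exact hs.tsum_pos (fun i => by positivity) 0 (by positivity)
  · have hg : Summable fun i : ℕ => (1 / (4 : ℝ)) ^ M * (1 / (4 : ℝ)) ^ i :=
      (summable_geometric_of_lt_one (by norm_num) (by norm_num)).mul_left _
    have hle : ∀ i : ℕ, (1 / (4 : ℝ)) ^ m i ≤ (1 / (4 : ℝ)) ^ M * (1 / (4 : ℝ)) ^ i := by
      intro i
      rw [← pow_add]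
      exact pow_le_pow_of_le_one (by norm_num) (by norm_num) (h i)
    have h4 := hs.tsum_le_tsum hle hg
    have h5 : ∑' i : ℕ, (1 / (4 : ℝ)) ^ M * (1 / (4 : ℝ)) ^ i = (1 / (4 : ℝ)) ^ M * (4 / 3) := by
      rw [tsum_mul_left, tsum_geometric_of_lt_one (by norm_num) (by norm_num)]
      norm_num
    rw [h5, one_div_pow] at h4
    refine h4.trans ?_
    have : (0 : ℝ) < (4 : ℝ) ^ M := by positivity
    rw [div_mul_eq_mul_div, div_le_div_iff_of_pos_right this]
    norm_num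

lemma tail_bounds' (m : ℕ → ℕ) (hs : Summable fun j : ℕ => (1 / (4 : ℝ)) ^ m j)
    (j : ℕ) (h : ∀ i, m (j + 1) + i ≤ m (i + (j + 1))) :
    0 < (∑' i : ℕ, (1 / (4 : ℝ)) ^ m i) - ∑ i ∈ Finset.range (j + 1), (1 / (4 : ℝ)) ^ m i ∧
      (∑' i : ℕ, (1 / (4 : ℝ)) ^ m i) - ∑ i ∈ Finset.range (j + 1), (1 / (4 : ℝ)) ^ m i
        ≤ 2 / (4 : ℝ) ^ m (j + 1) := by
  have h1 := hs.sum_add_tsum_nat_add (j + 1)
  rw [← h1, add_sub_cancel_left]
  have hs' : Summable fun i : ℕ => (1 / (4 : ℝ)) ^ m (i + (j + 1)) :=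
    (summable_nat_add_iff (j + 1)).mpr hs
  exact tail_bounds (fun i => m (i + (j + 1))) hs' (m (j + 1)) h

lemma alpha_bounds (E : ℕ) (hE : 1 ≤ E) (j : ℕ) :
    0 < alpha E - (aa E j : ℝ) / (qq E j : ℝ) ∧
      alpha E - (aa E j : ℝ) / (qq E j : ℝ) ≤ 2 / (qq E (j + 1) : ℝ) := by
  have h3 : (qq E (j + 1) : ℝ) = (4 : ℝ) ^ mm E (j + 1) := by
    simp only [qq, Int.cast_pow, Int.cast_ofNat]
  rw [← partial_sum, h3]
  exact tail_bounds' (mm E) (summable_alpha E hE) j (fun i => mm_strict E (j + 1) i hE)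

/-- the approximation lower bound, first form -/
lemma approx_lower (E : ℕ) (hE : 1 ≤ E) (j : ℕ) (q p : ℤ) (hq : 0 < q) (hlt : q < qq E j) :
    1 / (2 * (gg E j : ℝ) * (q : ℝ)) ≤ |(q : ℝ) * alpha E - p| := by
  have hkey := key E hE j q p hq.ne' (by rwa [abs_of_pos hq])
  rw [abs_of_pos hq] at hkey
  have hkeyR : (qq E j : ℝ) ≤ gg E j * (q * |(q : ℝ) * aa E j - p * qq E j|) := by
    exact_mod_cast hkey
  have hQ : (0 : ℝ) < qq E j := by exact_mod_cast qq_pos E j
  have hG : (0 : ℝ) < gg E j := by exact_mod_cast gg_pos E j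
  have hqR : (0 : ℝ) < q := by exact_mod_cast hq
  have hltR : (q : ℝ) < qq E j := by exact_mod_cast hlt
  have hGC : 4 * (gg E j : ℝ) ≤ cc E j := by exact_mod_cast four_gg_le E hE j
  obtain ⟨hb1, hb2⟩ := alpha_bounds E hE j
  have hqs : (qq E (j + 1) : ℝ) = (cc E j : ℝ) * (qq E j : ℝ) ^ 2 := by
    rw [qq_succ]; push_cast; ring
  rw [hqs] at hb2
  set Q : ℝ := (qq E j : ℝ)
  set G : ℝ := (gg E j : ℝ)
  set C : ℝ := (cc E j : ℝ)
  set A : ℝ := (aa E j : ℝ)
  -- `|q A / Q - p| ≥ 1 / (G q)`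
  have h1 : 1 / (G * q) ≤ |(q : ℝ) * (A / Q) - p| := by
    have : (q : ℝ) * (A / Q) - p = (q * A - p * Q) / Q := by field_simp
    rw [this, abs_div, abs_of_pos hQ, div_le_div_iff₀ (by positivity) hQ]
    linarith
  have h2 : |(q : ℝ) * (A / Q) - p| - |(q : ℝ) * alpha E - p| ≤ q * (2 / (C * Q ^ 2)) := by
    have h3 := abs_sub_abs_le_abs_sub ((q : ℝ) * (A / Q) - p) ((q : ℝ) * alpha E - p)
    have h4 : ((q : ℝ) * (A / Q) - p) - ((q : ℝ) * alpha E - p) = -(q * (alpha E - A / Q)) := by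
      ring
    rw [h4, abs_neg, abs_of_pos (mul_pos hqR hb1)] at h3
    have h5 : q * (alpha E - A / Q) ≤ q * (2 / (C * Q ^ 2)) :=
      mul_le_mul_of_nonneg_left hb2 hqR.le
    linarith
  have h3 : (q : ℝ) * (2 / (C * Q ^ 2)) ≤ 1 / (2 * G * q) := by
    have hC : 0 < C := by linarith
    rw [mul_div_assoc', div_le_div_iff₀ (by positivity) (by positivity)]
    have h4 : (q : ℝ) * q ≤ Q * Q := mul_le_mul hltR.le hltR.le hqR.le hQ.le
    have h5 : 4 * G * (q * q) ≤ C * (Q * Q) := mul_le_mul hGC h4 (by positivity) hC.le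
    nlinarith
  have h4 : 1 / (G * (q : ℝ)) = 1 / (2 * G * q) + 1 / (2 * G * q) := by
    field_simp; norm_num
  linarith

lemma lt_qq (E : ℕ) (hE : 1 ≤ E) (q : ℤ) : ∃ j, q < qq E j := by
  refine ⟨q.toNat, ?_⟩
  have h1 := mm_strict E 0 q.toNat hE
  have h2 : q.toNat < 4 ^ q.toNat := Nat.lt_pow_self (by norm_num)
  have h3 : 4 ^ q.toNat ≤ 4 ^ mm E q.toNat := Nat.pow_le_pow_right (by norm_num) (by simpa using (by omega : q.toNat ≤ mm E (q.toNat + 0)))
  have h4 : q ≤ (q.toNat : ℤ) := Int.self_le_toNat q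
  have h5 : ((4 ^ mm E q.toNat : ℕ) : ℤ) = qq E q.toNat := by unfold qq; push_cast; rfl
  rw [← h5]
  have : q.toNat < 4 ^ mm E q.toNat := lt_of_lt_of_le h2 h3
  omega

lemma approx_pos (E : ℕ) (hE : 1 ≤ E) (q p : ℤ) (hq : 0 < q) :
    0 < |(q : ℝ) * alpha E - p| := by
  obtain ⟨j, hj⟩ := lt_qq E hE q
  have h := approx_lower E hE j q p hq hj
  have hG : (0 : ℝ) < gg E j := by exact_mod_cast gg_pos E j
  have hqR : (0 : ℝ) < q := by exact_mod_cast hq
  have : 0 < 1 / (2 * (gg E j : ℝ) * (q : ℝ)) := by positivity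
  linarith

lemma irrational_alpha (E : ℕ) (hE : 1 ≤ E) : Irrational (alpha E) := by
  rintro ⟨r, hr⟩
  have h := approx_pos E hE r.den r.num (by exact_mod_cast r.pos)
  rw [← hr] at h
  have h2 : ((r.den : ℤ) : ℝ) * (r : ℝ) - (r.num : ℝ) = 0 := by
    have : (r : ℝ) = (r.num : ℝ) / (r.den : ℝ) := by exact_mod_cast (Rat.num_div_den r).symm
    rw [this]
    have hd : (r.den : ℝ) ≠ 0 := by exact_mod_cast r.den_nz
    push_cast
    field_simp
    ring
  rw [h2] at h
  simp at h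

/-- bound on the constants -/
lemma gg_bound (E : ℕ) (hE : 1 ≤ E) (q : ℤ) (hq : 0 < q) :
    ∃ j, q < qq E j ∧ (gg E j : ℝ) ≤ 4 ^ (E + 1) * (q : ℝ) ^ (1 / (E : ℝ)) := by
  have hex := lt_qq E hE q
  have hqR : (1 : ℝ) ≤ q := by exact_mod_cast hq
  have hER : (0 : ℝ) < E := by exact_mod_cast hE
  classical
  refine ⟨Nat.find hex, Nat.find_spec hex, ?_⟩
  rcases hj : Nat.find hex with _ | i
  · have h1 : (1 : ℝ) ≤ (q : ℝ) ^ (1 / (E : ℝ)) := Real.one_le_rpow hqR (by positivity)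
    have h2 : (gg E 0 : ℝ) = 4 ^ E := by unfold gg; push_cast; rfl
    rw [h2, pow_succ]
    have : (0 : ℝ) < 4 ^ E := by positivity
    nlinarith
  · have h1 : ¬ (q < qq E i) := Nat.find_min hex (by omega)
    push Not at h1
    have h2 : (gg E (i + 1) : ℝ) = 4 ^ (E + 1) * 4 ^ (mm E i / E) := by
      have : gg E (i + 1) = 4 ^ (mm E i / E + E + 1) := rfl
      rw [this]; push_cast; ring
    rw [h2]
    refine mul_le_mul_of_nonneg_left ?_ (by positivity)
    have h3 : ((4 : ℝ) ^ (mm E i / E)) ^ E ≤ q := by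
      rw [← pow_mul]
      have h4 : (4 : ℝ) ^ (mm E i / E * E) ≤ 4 ^ (mm E i) :=
        pow_le_pow_right₀ (by norm_num) (Nat.div_mul_le_self _ _)
      have h5 : ((qq E i : ℤ) : ℝ) ≤ q := by exact_mod_cast h1
      have h6 : ((qq E i : ℤ) : ℝ) = 4 ^ (mm E i) := by unfold qq; push_cast; rfl
      linarith
    have h4 : (4 : ℝ) ^ (mm E i / E) = (((4 : ℝ) ^ (mm E i / E)) ^ E) ^ (1 / (E : ℝ)) := by
      rw [one_div, Real.pow_rpow_inv_natCast (by positivity) (by omega)]
    rw [h4]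
    exact Real.rpow_le_rpow (by positivity) h3 (by positivity)

lemma type_alpha (E : ℕ) (hE : 1 ≤ E) (κ : ℝ) (hκ : 2 + 1 / (E : ℝ) ≤ κ) :
    IsOfType κ (alpha E) := by
  refine ⟨1 / (2 * 4 ^ (E + 1)), by positivity, ?_⟩
  intro a q hq _
  have hq0 : (0 : ℤ) < q := hq
  obtain ⟨j, hj1, hj2⟩ := gg_bound E hE q hq0
  have h := approx_lower E hE j q a hq0 hj1
  have hqR : (1 : ℝ) ≤ q := by exact_mod_cast hq
  have hqR0 : (0 : ℝ) < q := by linarith
  have hG : (0 : ℝ) < gg E j := by exact_mod_cast gg_pos E j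
  have h1 : |alpha E - (a : ℝ) / q| = |(q : ℝ) * alpha E - a| / q := by
    rw [eq_div_iff hqR0.ne']
    rw [← abs_of_pos hqR0, abs_of_pos hqR0]
    nth_rewrite 2 [← abs_of_pos hqR0]
    rw [← abs_mul]
    field_simp
  rw [h1]
  have h2 : (q : ℝ) ^ (-κ) ≤ (q : ℝ) ^ (-(2 + 1 / (E : ℝ))) :=
    Real.rpow_le_rpow_of_exponent_le hqR (by linarith)
  have h3 : (q : ℝ) ^ (-(2 + 1 / (E : ℝ))) = 1 / ((q : ℝ) ^ (1 / (E : ℝ)) * q * q) := by
    rw [Real.rpow_neg hqR0.le, Real.rpow_add hqR0, one_div]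
    congr 1
    rw [Real.rpow_two]; ring
  have hX : (0 : ℝ) < (q : ℝ) ^ (1 / (E : ℝ)) := by positivity
  calc 1 / (2 * 4 ^ (E + 1)) * (q : ℝ) ^ (-κ)
      ≤ 1 / (2 * 4 ^ (E + 1)) * (1 / ((q : ℝ) ^ (1 / (E : ℝ)) * q * q)) := by
        rw [← h3]; exact mul_le_mul_of_nonneg_left h2 (by positivity)
    _ = 1 / (2 * (4 ^ (E + 1) * (q : ℝ) ^ (1 / (E : ℝ))) * q) / q := by
        field_simp
    _ ≤ 1 / (2 * (gg E j : ℝ) * (q : ℝ)) / q := by
        apply div_le_div_of_nonneg_right _ hqR0.le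
        apply one_div_le_one_div_of_le (by positivity)
        exact mul_le_mul_of_nonneg_right (by linarith) hqR0.le
    _ ≤ |(q : ℝ) * alpha E - a| / q := div_le_div_of_nonneg_right h hqR0.le

/-! ### The test function and the lower bound for the correlation -/

/-- the test function `max (0, 2 - ‖y‖_∞)` -/
noncomputable def bump (d : ℕ) (y : Fin d → ℝ) : ℝ := max 0 (2 - ‖y‖)

lemma bump_continuous (d : ℕ) : Continuous (bump d) := by
  unfold bump; fun_prop

lemma bump_nonneg (d : ℕ) (y : Fin d → ℝ) : 0 ≤ bump d y := le_max_left _ _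

lemma bump_compact (d : ℕ) : HasCompactSupport (bump d) := by
  refine HasCompactSupport.of_support_subset_isCompact (isCompact_closedBall 0 2) ?_
  intro y hy
  rw [Function.mem_support] at hy
  rw [mem_closedBall_zero_iff]
  by_contra h
  push Not at h
  exact hy (max_eq_left (by linarith))

lemma bump_ge_one (d : ℕ) (y : Fin d → ℝ) (h : ∀ i, |y i| ≤ 1) : 1 ≤ bump d y := by
  have : ‖y‖ ≤ 1 := (pi_norm_le_iff_of_nonneg zero_le_one).mpr (fun i => by simpa using h i)
  exact le_trans (by linarith) (le_max_right _ _)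

lemma x_mem (α : ℝ) (n : ℕ) : 0 ≤ x α n ∧ x α n < 1 := ⟨Int.fract_nonneg _, Int.fract_lt_one _⟩

lemma summable_inner (d N : ℕ) (hN : 1 ≤ N) (α : ℝ) (n : Fin (d + 1) → ℕ) :
    Summable fun m : Fin d → ℤ =>
      bump d fun i => (N : ℝ) * (x α (n i.castSucc) - x α (n i.succ) + (m i : ℝ)) := by
  apply summable_of_hasFiniteSupport
  refine (Set.finite_Icc (fun _ : Fin d => (-3 : ℤ)) (fun _ => 3)).subset ?_
  intro m hm
  rw [Function.mem_support] at hm
  have h1 : ‖fun i : Fin d => (N : ℝ) * (x α (n i.castSucc) - x α (n i.succ) + (m i : ℝ))‖ < 2 := by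
    by_contra h
    push Not at h
    exact hm (max_eq_left (by linarith))
  have hNR : (1 : ℝ) ≤ N := by exact_mod_cast hN
  have h2 : ∀ i, |(m i : ℝ)| < 3 := by
    intro i
    have h3 := (norm_le_pi_norm (fun i : Fin d =>
      (N : ℝ) * (x α (n i.castSucc) - x α (n i.succ) + (m i : ℝ))) i).trans_lt h1
    simp only [Real.norm_eq_abs, abs_mul, Nat.abs_cast] at h3
    have h4 : |x α (n i.castSucc) - x α (n i.succ) + (m i : ℝ)| < 2 := by
      have := abs_nonneg (x α (n i.castSucc) - x α (n i.succ) + (m i : ℝ))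
      nlinarith
    have h5 := x_mem α (n i.castSucc)
    have h6 := x_mem α (n i.succ)
    rw [abs_lt] at h4 ⊢
    constructor <;> linarith [h4.1, h4.2, h5.1, h5.2, h6.1, h6.2]
  constructor
  · intro i
    have := h2 i
    rw [abs_lt] at this
    have h := this.1
    have : (-3 : ℤ) < m i := by exact_mod_cast h
    exact this.le
  · intro i
    have := h2 i
    rw [abs_lt] at this
    have h := this.2
    have : m i < (3 : ℤ) := by exact_mod_cast h
    exact this.le

lemma corr_lower (d N : ℕ) (hN : 1 ≤ N) (α : ℝ) (T : Finset (Fin (d + 1) → ℕ))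
    (hT : T ⊆ (Fintype.piFinset fun _ : Fin (d + 1) => Finset.Icc 1 N).filter
        (fun n => Function.Injective n))
    (hcl : ∀ n ∈ T, ∀ i j, |x α (n i) - x α (n j)| ≤ 1 / N) :
    (T.card : ℝ) / N ≤ corr d N α (bump d) := by
  unfold corr
  have hNR : (0 : ℝ) < N := by exact_mod_cast hN
  rw [div_eq_mul_one_div, mul_comm]
  refine mul_le_mul_of_nonneg_left ?_ (by positivity)
  refine le_trans ?_ (Finset.sum_le_sum_of_subset_of_nonneg hT
    (fun n _ _ => tsum_nonneg (fun m => bump_nonneg d _)))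
  rw [Finset.card_eq_sum_ones]
  push_cast
  refine Finset.sum_le_sum (fun n hn => ?_)
  have h1 := (summable_inner d N hN α n).le_tsum (0 : Fin d → ℤ) (fun m _ => bump_nonneg d _)
  refine le_trans ?_ h1
  apply bump_ge_one
  intro i
  simp only [Pi.zero_apply, Int.cast_zero, add_zero, abs_mul, Nat.abs_cast]
  have h2 := hcl n hn i.castSucc i.succ
  have h3 := mul_le_mul_of_nonneg_left h2 hNR.le
  rw [mul_one_div_cancel hNR.ne'] at h3
  exact h3

/-- the cluster near `0` -/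
lemma x_cluster (E : ℕ) (hE : 1 ≤ E) (j u N : ℕ) (hN : 2 ≤ N)
    (hu : 2 * (u : ℤ) ^ 2 * N ≤ cc E j * qq E j) :
    0 ≤ x (alpha E) (2 ^ mm E j * u) ∧ x (alpha E) (2 ^ mm E j * u) ≤ 1 / N := by
  refine ⟨(x_mem _ _).1, ?_⟩
  obtain ⟨hb1, hb2⟩ := alpha_bounds E hE j
  have hqs : (qq E (j + 1) : ℝ) = (cc E j : ℝ) * (qq E j : ℝ) ^ 2 := by
    rw [qq_succ]; push_cast; ring
  rw [hqs] at hb2
  have huR : 2 * (u : ℝ) ^ 2 * N ≤ (cc E j : ℝ) * (qq E j : ℝ) := by exact_mod_cast hu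
  have hQ : (0 : ℝ) < qq E j := by exact_mod_cast qq_pos E j
  have hC : (0 : ℝ) < cc E j := by exact_mod_cast cc_pos E j
  have hq4 : (qq E j : ℝ) = ((2 : ℝ) ^ mm E j) ^ 2 := by
    unfold qq
    push_cast
    rw [← pow_mul, mul_comm, pow_mul]
    norm_num
  have hNR : (2 : ℝ) ≤ N := by exact_mod_cast hN
  set θ : ℝ := (qq E j : ℝ) * (alpha E - (aa E j : ℝ) / (qq E j : ℝ)) with hθ
  have hθ0 : 0 < θ := mul_pos hQ hb1
  have hθ1 : θ ≤ 2 / ((cc E j : ℝ) * qq E j) := by
    have := mul_le_mul_of_nonneg_left hb2 hQ.le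
    refine this.trans (le_of_eq ?_)
    field_simp
  have h1 : (((2 ^ mm E j * u : ℕ) : ℝ)) ^ 2 * alpha E =
      (u : ℝ) ^ 2 * θ + ((u ^ 2 * aa E j : ℤ) : ℝ) := by
    have : alpha E = θ / qq E j + (aa E j : ℝ) / (qq E j : ℝ) := by
      rw [hθ]; field_simp; ring
    rw [this]
    push_cast
    rw [mul_pow, ← hq4]
    field_simp
  have h2 : (u : ℝ) ^ 2 * θ ≤ 1 / N := by
    have h3 : (u : ℝ) ^ 2 * θ ≤ u ^ 2 * (2 / ((cc E j : ℝ) * qq E j)) :=
      mul_le_mul_of_nonneg_left hθ1 (by positivity)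
    refine h3.trans ?_
    rw [mul_div_assoc', div_le_div_iff₀ (by positivity) (by linarith)]
    linarith
  have h3 : (u : ℝ) ^ 2 * θ < 1 := by
    have : (1 : ℝ) / N < 1 := by
      rw [div_lt_one (by linarith)]; linarith
    linarith
  unfold x
  rw [h1, Int.fract_add_intCast, Int.fract_eq_self.mpr ⟨by positivity, h3⟩]
  exact h2

/-- lower bound for the correlation at `N` from one approximation `a_j/q_j` -/
lemma corr_lower' (E : ℕ) (hE : 1 ≤ E) (d j L N : ℕ) (hN : 2 ≤ N)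
    (h1 : 2 ^ mm E j * ((d + 1) * L) ≤ N)
    (h2 : 2 * (((d + 1) * L : ℕ) : ℤ) ^ 2 * N ≤ cc E j * qq E j) :
    ((L : ℝ) ^ (d + 1)) / N ≤ corr d N (alpha E) (bump d) := by
  classical
  set v := 2 ^ mm E j with hv
  have hv0 : 0 < v := by positivity
  let T : Finset (Fin (d + 1) → ℕ) := Fintype.piFinset fun i : Fin (d + 1) =>
    (Finset.Icc 1 L).image (fun w => v * ((i : ℕ) * L + w))
  have hcard : T.card = L ^ (d + 1) := by
    rw [Fintype.card_piFinset]
    have : ∀ i : Fin (d + 1),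
        ((Finset.Icc 1 L).image (fun w => v * ((i : ℕ) * L + w))).card = L := by
      intro i
      rw [Finset.card_image_of_injective, Nat.card_Icc]
      · omega
      · intro a b hab
        have := Nat.eq_of_mul_eq_mul_left hv0 hab
        omega
    rw [Finset.prod_congr rfl (fun i _ => this i)]
    simp
  have hmem : ∀ n ∈ T, ∀ i : Fin (d + 1), ∃ w : ℕ, 1 ≤ w ∧ w ≤ L ∧ n i = v * ((i : ℕ) * L + w) := by
    intro n hn i
    have := Fintype.mem_piFinset.mp hn i
    rw [Finset.mem_image] at this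
    obtain ⟨w, hw, hw2⟩ := this
    rw [Finset.mem_Icc] at hw
    exact ⟨w, hw.1, hw.2, hw2.symm⟩
  have hbd : ∀ (i : Fin (d + 1)) (w : ℕ), w ≤ L → (i : ℕ) * L + w ≤ (d + 1) * L := by
    intro i w hw
    have hi : (i : ℕ) + 1 ≤ d + 1 := i.isLt
    calc (i : ℕ) * L + w ≤ (i : ℕ) * L + L := by omega
      _ = ((i : ℕ) + 1) * L := by ring
      _ ≤ (d + 1) * L := Nat.mul_le_mul_right _ hi
  have hT : T ⊆ (Fintype.piFinset fun _ : Fin (d + 1) => Finset.Icc 1 N).filter
        (fun n => Function.Injective n) := by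
    intro n hn
    rw [Finset.mem_filter, Fintype.mem_piFinset]
    constructor
    · intro i
      obtain ⟨w, hw1, hw2, hw3⟩ := hmem n hn i
      rw [Finset.mem_Icc, hw3]
      constructor
      · exact Nat.mul_pos hv0 (by omega)
      · exact (Nat.mul_le_mul_left v (hbd i w hw2)).trans h1
    · intro i i' hii
      obtain ⟨w, hw1, hw2, hw3⟩ := hmem n hn i
      obtain ⟨w', hw1', hw2', hw3'⟩ := hmem n hn i'
      rw [hw3, hw3'] at hii
      have h4 := Nat.eq_of_mul_eq_mul_left hv0 hii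
      by_contra hne
      have hne' : (i : ℕ) ≠ (i' : ℕ) := fun h => hne (Fin.ext h)
      rcases Nat.lt_or_gt_of_ne hne' with hlt | hlt
      · have : ((i : ℕ) + 1) * L ≤ (i' : ℕ) * L := Nat.mul_le_mul_right _ hlt
        rw [Nat.add_mul, one_mul] at this
        omega
      · have : ((i' : ℕ) + 1) * L ≤ (i : ℕ) * L := Nat.mul_le_mul_right _ hlt
        rw [Nat.add_mul, one_mul] at this
        omega
  have hcl : ∀ n ∈ T, ∀ i i', |x (alpha E) (n i) - x (alpha E) (n i')| ≤ 1 / N := by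
    intro n hn i i'
    have key2 : ∀ i : Fin (d + 1), 0 ≤ x (alpha E) (n i) ∧ x (alpha E) (n i) ≤ 1 / N := by
      intro i
      obtain ⟨w, hw1, hw2, hw3⟩ := hmem n hn i
      rw [hw3]
      apply x_cluster E hE j _ N hN
      refine le_trans ?_ h2
      have h5 : (((i : ℕ) * L + w : ℕ) : ℤ) ≤ (((d + 1) * L : ℕ) : ℤ) := by
        exact_mod_cast hbd i w hw2
      have h6 : (((i : ℕ) * L + w : ℕ) : ℤ) ^ 2 ≤ (((d + 1) * L : ℕ) : ℤ) ^ 2 :=
        pow_le_pow_left₀ (by positivity) h5 2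
      have h7 : (0 : ℤ) ≤ N := by positivity
      nlinarith
    have h8 := key2 i
    have h9 := key2 i'
    rw [abs_le]
    constructor <;> linarith [h8.1, h8.2, h9.1, h9.2]
  have h3 := corr_lower d N (by omega) (alpha E) T hT hcl
  rw [hcard] at h3
  push_cast at h3
  exact h3

/-! ### Choice of the parameters and the conclusion -/

lemma choice (E n : ℕ) (hE : 1 ≤ E) (hn : 22 * E + 400 * (E * E) ≤ n) :
    ∃ j, mm E j + (n / (20 * E) + 1 + 20 * E) ≤ n ∧
      2 * (n / (20 * E) + 1 + 20 * E) + n + 2 ≤ 2 * (ee E j + mm E j) := by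
  set r := n / (20 * E) with hr
  set S := r + 1 + 20 * E with hS
  have hrn : r * (20 * E) ≤ n := Nat.div_mul_le_self _ _
  have hr1 : 20 * r ≤ n := by
    have : r * 20 ≤ r * (20 * E) := Nat.mul_le_mul_left _ (by omega)
    omega
  have hEE : E ≤ E * E := Nat.le_mul_self E
  have hex : ∃ j, n < mm E (j + 1) + S := by
    refine ⟨n, ?_⟩
    have := mm_strict E 0 (n + 1) hE
    simp only [add_zero] at this
    omega
  classical
  obtain ⟨j, hj1, hj2⟩ : ∃ j, n < mm E (j + 1) + S ∧ mm E j + S ≤ n := by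
    refine ⟨Nat.find hex, Nat.find_spec hex, ?_⟩
    rcases hj : Nat.find hex with _ | i
    · show E + S ≤ n
      omega
    · have := Nat.find_min hex (m := i) (by omega)
      omega
  refine ⟨j, hj2, ?_⟩
  rw [mm_succ] at hj1
  set m := mm E j with hm
  have hee : ee E j = m / E + E + 1 := rfl
  set t := m / E with ht
  have hmt : m < E * (t + 1) := by
    rw [ht, Nat.mul_add, mul_one]
    have := Nat.div_add_mod m E
    have := Nat.mod_lt m (by omega : E > 0)
    omega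
  have htm : t ≤ m := Nat.div_le_self _ _
  have hkey : 3 * S ≤ t + E := by
    by_contra hcon
    push Not at hcon
    have h1 : E * (t + 1) ≤ E * (3 * S) := Nat.mul_le_mul_left _ (by omega)
    have h2 : n ≤ S + 3 * (E * (3 * S)) + E := by omega
    have h3 : S ≤ E * S := Nat.le_mul_of_pos_left _ (by omega)
    have h4 : E * S = E * r + E + 20 * (E * E) := by rw [hS]; ring
    have h5 : r * (20 * E) = 20 * (E * r) := by ring
    have h6 : E * (3 * S) = 3 * (E * S) := by ring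
    omega
  omega

lemma corr_large (E : ℕ) (hE : 1 ≤ E) (N : ℕ) (hN : 2 ^ (22 * E + 400 * (E * E)) ≤ N) :
    (2 : ℝ) ^ (Nat.log 2 N / (20 * E)) ≤ corr (20 * E) N (alpha E) (bump (20 * E)) := by
  set n := Nat.log 2 N with hn
  have hN0 : N ≠ 0 := by
    have : 0 < 2 ^ (22 * E + 400 * (E * E)) := by positivity
    omega
  have hn1 : 22 * E + 400 * (E * E) ≤ n := by
    rw [hn]
    exact Nat.le_log_of_pow_le (by norm_num) hN
  have hN1 : 2 ^ n ≤ N := Nat.pow_log_le_self 2 hN0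
  have hN2 : N < 2 ^ (n + 1) := Nat.lt_pow_succ_log_self (by norm_num) N
  have hN3 : 2 ≤ N := by
    refine le_trans ?_ hN1
    calc 2 = 2 ^ 1 := rfl
      _ ≤ 2 ^ n := Nat.pow_le_pow_right (by norm_num) (by omega)
  obtain ⟨j, hj1, hj2⟩ := choice E n hE hn1
  set r := n / (20 * E) with hr
  have hd : 20 * E + 1 ≤ 2 ^ (20 * E) := Nat.lt_two_pow_self
  have hL : (20 * E + 1) * 2 ^ (r + 1) ≤ 2 ^ (r + 1 + 20 * E) := by
    rw [pow_add 2 (r + 1) (20 * E), mul_comm]
    exact Nat.mul_le_mul_left _ hd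
  have h1 : 2 ^ mm E j * ((20 * E + 1) * 2 ^ (r + 1)) ≤ N := by
    calc 2 ^ mm E j * ((20 * E + 1) * 2 ^ (r + 1))
        ≤ 2 ^ mm E j * 2 ^ (r + 1 + 20 * E) := Nat.mul_le_mul_left _ hL
      _ = 2 ^ (mm E j + (r + 1 + 20 * E)) := by rw [← pow_add]
      _ ≤ 2 ^ n := Nat.pow_le_pow_right (by norm_num) hj1
      _ ≤ N := hN1
  have h2 : 2 * (((20 * E + 1) * 2 ^ (r + 1) : ℕ) : ℤ) ^ 2 * N ≤ cc E j * qq E j := by
    have h3 : 2 * ((20 * E + 1) * 2 ^ (r + 1)) ^ 2 * N ≤ 4 ^ ee E j * 4 ^ mm E j := by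
      calc 2 * ((20 * E + 1) * 2 ^ (r + 1)) ^ 2 * N
          ≤ 2 * (2 ^ (r + 1 + 20 * E)) ^ 2 * 2 ^ (n + 1) :=
            Nat.mul_le_mul (Nat.mul_le_mul_left _ (Nat.pow_le_pow_left hL 2)) hN2.le
        _ = 2 ^ (2 * (r + 1 + 20 * E) + n + 2) := by ring
        _ ≤ 2 ^ (2 * (ee E j + mm E j)) := Nat.pow_le_pow_right (by norm_num) hj2
        _ = 4 ^ ee E j * 4 ^ mm E j := by
            rw [pow_mul, ← pow_add]; norm_num
    unfold cc qq
    exact_mod_cast h3
  have h3 := corr_lower' E hE (20 * E) j (2 ^ (r + 1)) N hN3 h1 h2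
  refine le_trans ?_ h3
  have hNR : (0 : ℝ) < N := by positivity
  rw [le_div_iff₀ hNR]
  have h4 : n < 20 * E * (r + 1) := by
    rw [hr, Nat.mul_add, mul_one]
    have := Nat.div_add_mod n (20 * E)
    have := Nat.mod_lt n (by omega : 20 * E > 0)
    omega
  have h5 : 2 ^ r * N ≤ (2 ^ (r + 1)) ^ (20 * E + 1) := by
    calc 2 ^ r * N ≤ 2 ^ r * 2 ^ (n + 1) := Nat.mul_le_mul_left _ hN2.le
      _ = 2 ^ (r + (n + 1)) := by rw [← pow_add]
      _ ≤ 2 ^ ((r + 1) * (20 * E + 1)) := by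
          apply Nat.pow_le_pow_right (by norm_num)
          rw [Nat.mul_add, mul_one, mul_comm (r + 1) (20 * E)]
          omega
      _ = (2 ^ (r + 1)) ^ (20 * E + 1) := by rw [pow_mul]
  have h6 : ((2 ^ r * N : ℕ) : ℝ) ≤ (((2 ^ (r + 1)) ^ (20 * E + 1) : ℕ) : ℝ) := by
    exact_mod_cast h5
  push_cast at h6 ⊢
  exact h6

lemma corr_tendsto (E : ℕ) (hE : 1 ≤ E) :
    Tendsto (fun N : ℕ => corr (20 * E) N (alpha E) (bump (20 * E))) atTop atTop := by
  have h1 : Tendsto (fun N : ℕ => (2 : ℝ) ^ (Nat.log 2 N / (20 * E))) atTop atTop := by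
    have h2 : Tendsto (fun N : ℕ => Nat.log 2 N / (20 * E)) atTop atTop := by
      rw [tendsto_atTop]
      intro b
      filter_upwards [eventually_ge_atTop (2 ^ (b * (20 * E)))] with N hN
      rw [Nat.le_div_iff_mul_le (by omega)]
      exact Nat.le_log_of_pow_le (by norm_num) hN
    exact (tendsto_pow_atTop_atTop_of_one_lt (by norm_num : (1 : ℝ) < 2)).comp h2
  refine tendsto_atTop_mono' atTop ?_ h1
  filter_upwards [eventually_ge_atTop (2 ^ (22 * E + 400 * (E * E)))] with N hN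
  exact corr_large E hE N hN

/-- For every `κ > 2` there is an irrational `α` of type `κ` for which some correlation
`R_k(N, α, f)` tends to `+∞` as `N → ∞` through all integers; in particular there is no sequence
`N_j → ∞` along which `{n² α}` is Poissonian. For `κ = 3` this is the negation of the question. -/
theorem result : ∀ κ : ℝ, 2 < κ → ∃ α : ℝ, Irrational α ∧ IsOfType κ α ∧
    (∃ d : ℕ, 1 ≤ d ∧ ∃ f : (Fin d → ℝ) → ℝ, Continuous f ∧ HasCompactSupport f ∧
      Tendsto (fun N : ℕ => corr d N α f) atTop atTop) ∧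
    ∀ N : ℕ → ℕ, Tendsto N atTop atTop → ¬ PoissonianAlong α N := by
  intro κ hκ
  obtain ⟨E, hE⟩ := exists_nat_gt (1 / (κ - 2))
  have hκ0 : 0 < κ - 2 := by linarith
  have hE0 : (0 : ℝ) < E := lt_trans (by positivity) hE
  have hE1 : 1 ≤ E := by exact_mod_cast hE0
  have hκE : 2 + 1 / (E : ℝ) ≤ κ := by
    have : 1 / (E : ℝ) ≤ κ - 2 := by
      rw [div_le_iff₀ hE0]
      rw [div_lt_iff₀ hκ0] at hE
      linarith
    linarith
  refine ⟨alpha E, irrational_alpha E hE1, type_alpha E hE1 κ hκE,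
    ⟨20 * E, by omega, bump (20 * E), bump_continuous _, bump_compact _, corr_tendsto E hE1⟩, ?_⟩
  intro N hN hP
  have h1 := hP (20 * E) (by omega) (bump (20 * E)) (bump_continuous _) (bump_compact _)
  exact not_tendsto_nhds_of_tendsto_atTop ((corr_tendsto E hE1).comp hN) _ h1

end Pool.Agent.Results.MP_ba281e_nt.NoPoissonSubseq
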